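import Pool.Agent.Q87.WHFour
import Pool.Agent.Q87.WHDefs

/-!
# MP_0d9948_an, Q1: yes, with `p = 4`

There is `g ∈ H^∞(𝔻)` with `|g| > 1` on `𝔻` whose coanalytic Toeplitz operator
`T_g^* f = P_+(\bar g f)` on `H^4(𝔻)` is weakly hypercyclic.
-/

open MeasureTheory AddCircle Filter Topology
open scoped Real ENNReal ComplexConjugate
open Pool.Agent.Q87.WHD

namespace Pool.Agent.Results.MP_0d9948_an.WeaklyHypercyclic

/-- **Q1: yes.** For the exponent `p = 4` there is `g ∈ H^∞(𝔻)` with `|g(z)| > 1` for all `z ∈ 𝔻`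
such that `T_g^*` is weakly hypercyclic on `H^p(𝔻)`. -/
theorem result : ∃ (p : ℝ≥0∞) (_ : Fact (1 ≤ p)), p = 4 ∧ ∃ g : ℂ → ℂ, HInfty g ∧
    (∀ z ∈ Metric.ball (0 : ℂ) 1, 1 < ‖g z‖) ∧
    ∃ T : Hp p →L[ℂ] Hp p, IsCoanalyticToeplitz g T ∧ IsWeaklyHypercyclic T := by
  obtain ⟨g, h1, h2, h3, h4, h5, P, hP, x, hx⟩ := Pool.Agent.Q87.WH.main_four
  refine ⟨4, Pool.Agent.Q87.WH.fact4, rfl, g, ⟨h1, h2⟩, h3,
    Pool.Agent.Q87.WH.toep hP (fun x => g (Pool.Agent.Q87.WH.zz x)), ?_, x, hx⟩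
  refine ⟨Pool.Agent.Q87.WH.pr hP, ?_, fun x => g (toCircle x), h4, fun f => ?_⟩
  · intro f n hn
    have := hP f n
    rw [if_pos hn] at this
    exact this
  · exact ⟨Pool.Agent.Q87.WH.mul 4 (fun x => conj (g (Pool.Agent.Q87.WH.zz x))) f.1,
      Pool.Agent.Q87.WH.mul_ae h5.conj _, rfl⟩

end Pool.Agent.Results.MP_0d9948_an.WeaklyHypercyclic
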